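import Mathlib
import Pool.Agent.Work.MP_99218a_nt.MAIN

/-!
# MP_99218a_nt: large moduli

Under GRH: for all large `q` the classes `1`, `-1`, the classes of the prime powers
`p ^ k ≤ c log p φ(q)` (any `c < 1/2`), and the inverses of the classes of the prime powers with
`p ^ k √(log q) ≤ c' log p √φ(q)`, are outside the set.
-/

set_option autoImplicit false

namespace Pool.Agent.Results.MP_99218a_nt.LargeModuli

open Filter Topology

/-- The generalized Riemann hypothesis for Dirichlet `L`-functions. -/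
def GRH : Prop := ∀ (q : ℕ) [NeZero q] (χ : DirichletCharacter ℂ q) (s : ℂ),
  χ.LFunction s = 0 → 0 < s.re → s.re < 1 → s.re = 1 / 2

/-- The logarithmic integral: the principal value of `∫_0^t du / log u`. -/
noncomputable def li (t : ℝ) : ℝ :=
  limUnder (𝓝[>] (0 : ℝ)) fun ε => ∫ u in Set.Icc 0 t \ Set.Ioo (1 - ε) (1 + ε), (Real.log u)⁻¹

/-- `π(t; q, a)`: the number of primes `p ≤ t` with `p ≡ a mod q`. -/
noncomputable def primeCount (q : ℕ) (a : ℤ) (t : ℝ) : ℕ :=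
  Nat.card {p : ℕ // p.Prime ∧ (p : ℝ) ≤ t ∧ (p : ℤ) ≡ a [ZMOD q]}

/-- The integrated error `∫_0^x (φ(q) π(t; q, a) - li(t)) dt`. -/
noncomputable def integratedError (q : ℕ) (a : ℤ) (x : ℝ) : ℝ :=
  ∫ t in (0 : ℝ)..x, ((q.totient : ℝ) * primeCount q a t - li t)

/-- The integrated error is negative for all large `x`: the pair `(q, a)` belongs to the set. -/
def EventuallyNegative (q : ℕ) (a : ℤ) : Prop :=
  ∃ x0 : ℝ, ∀ x : ℝ, x0 ≤ x → integratedError q a x < 0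

theorem grh_iff : GRH ↔ Pool.Agent.AQ.GRH := Iff.rfl

theorem neg_iff (q : ℕ) (a : ℤ) : EventuallyNegative q a ↔ Pool.Agent.AQ.InSet q a := Iff.rfl

theorem result (h : GRH) : ∃ c' : ℝ, 0 < c' ∧ ∀ c : ℝ, c < 1 / 2 →
    ∃ q0 : ℕ, ∀ q : ℕ, q0 ≤ q → ∀ a : ℤ, IsCoprime a (q : ℤ) →
    (a ≡ 1 [ZMOD q] ∨ a ≡ -1 [ZMOD q] ∨
      (∃ p k : ℕ, p.Prime ∧ a ≡ (p : ℤ) ^ k [ZMOD q] ∧
        (p : ℝ) ^ k ≤ c * Real.log p * q.totient) ∨
      (∃ p k : ℕ, p.Prime ∧ (p : ℤ) ^ k * a ≡ 1 [ZMOD q] ∧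
        (p : ℝ) ^ k * √(Real.log q) ≤ c' * Real.log p * √(q.totient : ℝ))) →
    ¬ EventuallyNegative q a :=
  Pool.Agent.AQ.Main.large Pool.Agent.AQ.stmt_KB h

end Pool.Agent.Results.MP_99218a_nt.LargeModuli
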