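import Mathlib
import Pool.Agent.Work.MP_99218a_nt.MAIN2

/-!
# MP_99218a_nt: non-squares are outside

Under GRH, let `q ≥ 1`, let `H` be a group of classes modulo `q` and `b` a class such that the coset
`bH` contains no square. If `L(1/2, χ) ≠ 0` for every nonprincipal character `χ` modulo `q` which is
trivial on `H` and satisfies `Re χ(b) > 0`, then the coset `bH` contains a class outside the set.
For `H = 1`: the non-square `b` itself is outside. For the kernel `H` of a real character no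
condition remains, so that every modulus `q ≥ 3` has a non-square class outside the set.
-/

set_option autoImplicit false

namespace Pool.Agent.Results.MP_99218a_nt.NonSquares

open Filter Topology

/-- The generalized Riemann hypothesis for Dirichlet `L`-functions. -/
def GRH : Prop := ∀ (q : ℕ) [NeZero q] (χ : DirichletCharacter ℂ q) (s : ℂ),
  χ.LFunction s = 0 → 0 < s.re → s.re < 1 → s.re = 1 / 2

/-- The logarithmic integral: the principal value of `∫_0^t du / log u`. -/
noncomputable def li (t : ℝ) : ℝ :=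
  limUnder (𝓝[>] (0 : ℝ)) fun ε => ∫ u in Set.Icc 0 t \ Set.Ioo (1 - ε) (1 + ε), (Real.log u)⁻¹

/-- `π(t; q, a)`: the number of primes `p ≤ t` with `p ≡ a mod q`. -/
noncomputable def primeCount (q : ℕ) (a : ℤ) (t : ℝ) : ℕ :=
  Nat.card {p : ℕ // p.Prime ∧ (p : ℝ) ≤ t ∧ (p : ℤ) ≡ a [ZMOD q]}

/-- The integrated error `∫_0^x (φ(q) π(t; q, a) - li(t)) dt`. -/
noncomputable def integratedError (q : ℕ) (a : ℤ) (x : ℝ) : ℝ :=
  ∫ t in (0 : ℝ)..x, ((q.totient : ℝ) * primeCount q a t - li t)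

/-- The integrated error is negative for all large `x`: the pair `(q, a)` belongs to the set. -/
def EventuallyNegative (q : ℕ) (a : ℤ) : Prop :=
  ∃ x0 : ℝ, ∀ x : ℝ, x0 ≤ x → integratedError q a x < 0

theorem grh_iff : GRH ↔ Pool.Agent.AQ.GRH := Iff.rfl

theorem neg_iff (q : ℕ) (a : ℤ) : EventuallyNegative q a ↔ Pool.Agent.AQ.InSet q a := Iff.rfl

theorem result (h : GRH) (q : ℕ) [NeZero q] :
    (∀ (H : Subgroup (ZMod q)ˣ) (b : (ZMod q)ˣ), (∀ x ∈ H, ¬ IsSquare (b * x)) →
      (∀ χ : DirichletCharacter ℂ q, χ ≠ 1 → (∀ x ∈ H, χ x = 1) → 0 < (χ b).re →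
        χ.LFunction (1 / 2) ≠ 0) →
      ∃ a : ℤ, (∃ x ∈ H, (a : ZMod q) = b * x) ∧ ¬ EventuallyNegative q a) ∧
    (3 ≤ q → ∃ a : ℤ, IsCoprime a (q : ℤ) ∧ (¬ ∃ b : ℤ, b ^ 2 ≡ a [ZMOD q]) ∧
      ¬ EventuallyNegative q a) :=
  ⟨fun H b hb hc => Pool.Agent.AQ.Main.cosets h q H b hb hc,
    fun hq => Pool.Agent.AQ.Main.every h q hq⟩

end Pool.Agent.Results.MP_99218a_nt.NonSquares
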