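import Mathlib
import Pool.Agent.Work.MP_99218a_nt.MAIN

/-!
# MP_99218a_nt: a positive proportion of the classes is outside

Under GRH there are `c > 0` and `q0` such that for all `q ≥ q0` at least `c φ(q)` of the `φ(q)`
classes are outside the set, and at least `c φ(q) / r(q)²` of them are squares, where `r(q)` is the
number of square roots of `1` modulo `q`.
-/

set_option autoImplicit false

namespace Pool.Agent.Results.MP_99218a_nt.Proportion

open Filter Topology

/-- The generalized Riemann hypothesis for Dirichlet `L`-functions. -/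
def GRH : Prop := ∀ (q : ℕ) [NeZero q] (χ : DirichletCharacter ℂ q) (s : ℂ),
  χ.LFunction s = 0 → 0 < s.re → s.re < 1 → s.re = 1 / 2

/-- The logarithmic integral: the principal value of `∫_0^t du / log u`. -/
noncomputable def li (t : ℝ) : ℝ :=
  limUnder (𝓝[>] (0 : ℝ)) fun ε => ∫ u in Set.Icc 0 t \ Set.Ioo (1 - ε) (1 + ε), (Real.log u)⁻¹

/-- `π(t; q, a)`: the number of primes `p ≤ t` with `p ≡ a mod q`. -/
noncomputable def primeCount (q : ℕ) (a : ℤ) (t : ℝ) : ℕ :=
  Nat.card {p : ℕ // p.Prime ∧ (p : ℝ) ≤ t ∧ (p : ℤ) ≡ a [ZMOD q]}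

/-- The integrated error `∫_0^x (φ(q) π(t; q, a) - li(t)) dt`. -/
noncomputable def integratedError (q : ℕ) (a : ℤ) (x : ℝ) : ℝ :=
  ∫ t in (0 : ℝ)..x, ((q.totient : ℝ) * primeCount q a t - li t)

/-- The integrated error is negative for all large `x`: the pair `(q, a)` belongs to the set. -/
def EventuallyNegative (q : ℕ) (a : ℤ) : Prop :=
  ∃ x0 : ℝ, ∀ x : ℝ, x0 ≤ x → integratedError q a x < 0

/-- The number of classes modulo `q`, coprime to `q`, outside the set. -/
noncomputable def outside (q : ℕ) : ℕ :=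
  {a : ℕ | a < q ∧ a.Coprime q ∧ ¬ EventuallyNegative q a}.ncard

/-- The number of square classes modulo `q`, coprime to `q`, outside the set. -/
noncomputable def outsideSquares (q : ℕ) : ℕ :=
  {a : ℕ | a < q ∧ a.Coprime q ∧ (∃ b : ℤ, b ^ 2 ≡ a [ZMOD q]) ∧ ¬ EventuallyNegative q a}.ncard

/-- The number of square roots of `1` modulo `q`. -/
noncomputable def roots (q : ℕ) : ℕ := Nat.card {b : ZMod q // b ^ 2 = 1}

theorem grh_iff : GRH ↔ Pool.Agent.AQ.GRH := Iff.rfl

theorem neg_iff (q : ℕ) (a : ℤ) : EventuallyNegative q a ↔ Pool.Agent.AQ.InSet q a := Iff.rfl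

theorem result (h : GRH) : ∃ c : ℝ, 0 < c ∧ ∃ q0 : ℕ, ∀ q : ℕ, q0 ≤ q →
    c * (q.totient : ℝ) ≤ (outside q : ℝ) ∧
    c * (q.totient : ℝ) / (roots q : ℝ) ^ 2 ≤ (outsideSquares q : ℝ) := by
  classical
  obtain ⟨c1, hc1, q1, h1⟩ := Pool.Agent.AQ.Main.proportion Pool.Agent.AQ.stmt_KB h
  obtain ⟨c2, hc2, q2, h2⟩ := Pool.Agent.AQ.Main.proportion_squares Pool.Agent.AQ.stmt_KB h
  refine ⟨min c1 c2, lt_min hc1 hc2, max q1 q2, fun q hq => ⟨?_, ?_⟩⟩
  · refine (mul_le_mul_of_nonneg_right (min_le_left _ _) (Nat.cast_nonneg _)).trans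
      ((h1 q ((le_max_left _ _).trans hq)).trans (le_of_eq ?_))
    congr 1
    unfold outside
    rw [← Set.ncard_coe_finset]
    congr 1
    ext a
    simp only [Finset.coe_filter, Finset.mem_range, Set.mem_ofPred_eq]
    exact Iff.rfl
  · have h3 := h2 q ((le_max_right _ _).trans hq)
    have e1 : Pool.Agent.AQ.rt q 1 = roots q := by
      unfold Pool.Agent.AQ.rt roots
      simp
    rw [e1] at h3
    refine (div_le_div_of_nonneg_right (mul_le_mul_of_nonneg_right (min_le_right _ _)
      (Nat.cast_nonneg _)) (by positivity)).trans (h3.trans (le_of_eq ?_))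
    congr 1
    unfold outsideSquares
    rw [← Set.ncard_coe_finset]
    congr 1
    ext a
    simp only [Finset.coe_filter, Finset.mem_range, Set.mem_ofPred_eq]
    exact Iff.rfl

end Pool.Agent.Results.MP_99218a_nt.Proportion
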