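import Mathlib
import Pool.Agent.Work.MP_99218a_nt.MAIN

/-!
# MP_99218a_nt: complete determination for thirteen moduli

Under GRH, for `q` in `{1, 2, 3, 4, 5, 6, 8, 10, 12, 15, 20, 24, 30}` and `a` coprime to `q`, the
integrated error is negative for all large `x` exactly if `a` is a square modulo `q`.
-/

set_option autoImplicit false

namespace Pool.Agent.Results.MP_99218a_nt.SmallModuli

open Filter Topology

/-- The generalized Riemann hypothesis for Dirichlet `L`-functions. -/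
def GRH : Prop := ∀ (q : ℕ) [NeZero q] (χ : DirichletCharacter ℂ q) (s : ℂ),
  χ.LFunction s = 0 → 0 < s.re → s.re < 1 → s.re = 1 / 2

/-- The logarithmic integral: the principal value of `∫_0^t du / log u`. -/
noncomputable def li (t : ℝ) : ℝ :=
  limUnder (𝓝[>] (0 : ℝ)) fun ε => ∫ u in Set.Icc 0 t \ Set.Ioo (1 - ε) (1 + ε), (Real.log u)⁻¹

/-- `π(t; q, a)`: the number of primes `p ≤ t` with `p ≡ a mod q`. -/
noncomputable def primeCount (q : ℕ) (a : ℤ) (t : ℝ) : ℕ :=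
  Nat.card {p : ℕ // p.Prime ∧ (p : ℝ) ≤ t ∧ (p : ℤ) ≡ a [ZMOD q]}

/-- The integrated error `∫_0^x (φ(q) π(t; q, a) - li(t)) dt`. -/
noncomputable def integratedError (q : ℕ) (a : ℤ) (x : ℝ) : ℝ :=
  ∫ t in (0 : ℝ)..x, ((q.totient : ℝ) * primeCount q a t - li t)

/-- The integrated error is negative for all large `x`: the pair `(q, a)` belongs to the set. -/
def EventuallyNegative (q : ℕ) (a : ℤ) : Prop :=
  ∃ x0 : ℝ, ∀ x : ℝ, x0 ≤ x → integratedError q a x < 0

theorem grh_iff : GRH ↔ Pool.Agent.AQ.GRH := Iff.rfl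

theorem neg_iff (q : ℕ) (a : ℤ) : EventuallyNegative q a ↔ Pool.Agent.AQ.InSet q a := Iff.rfl

theorem result (h : GRH) (q : ℕ)
    (hq : q ∈ ({1, 2, 3, 4, 5, 6, 8, 10, 12, 15, 20, 24, 30} : Finset ℕ)) (a : ℤ)
    (ha : IsCoprime a (q : ℤ)) :
    EventuallyNegative q a ↔ ∃ b : ℤ, b ^ 2 ≡ a [ZMOD q] :=
  Pool.Agent.AQ.Main.small13 Pool.Agent.AQ.stmt_KB h q hq a ha

end Pool.Agent.Results.MP_99218a_nt.SmallModuli
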